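import Pool.Agent.helper53.ORT.Spec

/-!
# MP_561ff4_al, row ort:KH
-/

set_option autoImplicit false

namespace Pool.Agent.ORT

open Module Pool.Agent.GS

theorem KH_neg {F V : Type} [Field F] [AddCommGroup V] [Module F V] {f : Equiv.Perm V}
    (hf : Lin F f) (x : V) : f (-x) = -(f x) := by
  have := hf.2 (-1) x
  rw [neg_one_smul, neg_one_smul] at this
  exact this

theorem KH_sub {F V : Type} [Field F] [AddCommGroup V] [Module F V] {f : Equiv.Perm V}
    (hf : Lin F f) (x y : V) : f (x - y) = f x - f y := by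
  rw [sub_eq_add_neg, hf.1, KH_neg hf, ← sub_eq_add_neg]

theorem KH (hbf : GS.BF_stmt) : KH_stmt := by
  intro F V K ι _ _ _ _ _ _ _ _ _ _ B h2 hB k hk r hr hr2 hkr β σ j hD u c hc hu
  have h20 : (2 : F) ≠ 0 := Ring.two_ne_zero h2
  have hOg : Og B (fun i => j (u i)) := by
    refine ⟨fun i i' hii => ?_, fun i => ?_⟩
    · rw [hu, if_neg hii]
    · rw [hu, if_pos rfl]
      exact hc i
  refine ⟨hOg, ?_⟩
  have hflin : Lin F (fl B (fun i => j (u i))) := (fl_mem hB _).1
  have hflself : ∀ i, fl B (fun i => j (u i)) (j (u i)) = -(j (u i)) := fun i => fl_self hOg i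
  have hflorth : ∀ x, (∀ P, B x (j P) = 0) → fl B (fun i => j (u i)) x = x := by
    intro x hx
    exact fl_of_orth hOg (fun i => hx (u i))
  generalize fl B (fun i => j (u i)) = fL at hflin hflself hflorth ⊢
  have hklin := hk.1
  have hkinv : k⁻¹ ∈ SpG B := (SpG B).inv_mem hk
  have hkilin := hkinv.1
  -- fL is -1 on the image of j
  have hA : ∀ P : K, fL (j P) = -(j P) := by
    intro P
    have h1 : ({ toFun := fL, map_add' := hflin.1, map_smul' := hflin.2 } : V →ₗ[F] V) ∘ₗ j = -j :=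
      u.ext (fun i => hflself i)
    exact LinearMap.congr_fun h1 P
  have h2inj : ∀ x y : V, (2 : F) • x = (2 : F) • y → x = y := by
    intro x y hxy
    have := congrArg (fun z => (2 : F)⁻¹ • z) hxy
    simp only [smul_smul, inv_mul_cancel₀ h20, one_smul] at this
    exact this
  have hfs : ∀ P Q, B (k (j P)) (j Q) = B (k⁻¹ (j P)) (j Q) := by
    intro P Q
    have h1 : B (k⁻¹ (j P)) (j Q) = B (k (j Q)) (j P) := by
      rw [← hk.2 (k⁻¹ (j P)) (j Q), pinv, hB.symm]
    have h3 := hD.f2 P Q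
    have h4 := hD.f2 Q P
    have h5 : β * σ * P * Q = β * σ * Q * P := by ring
    rw [h5, ← h4] at h3
    rw [h1]
    exact mul_left_cancel₀ h20 h3
  -- reflection of k x and of the inverse
  have hC : ∀ P, fL (k⁻¹ (j P)) = -(k (j P)) := by
    intro P
    have hy : fL ((2 : F) • k⁻¹ (j P) - j (σ * P)) = (2 : F) • k⁻¹ (j P) - j (σ * P) := by
      apply hflorth
      intro Q
      rw [map_sub, LinearMap.sub_apply, map_smul, LinearMap.smul_apply, smul_eq_mul, ← hfs, hD.f2,
        hD.f1, sub_eq_zero]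
      congr 1
      ring
    rw [KH_sub hflin, hflin.2, hA, sub_neg_eq_add, ← hD.s P] at hy
    apply h2inj
    have h3 : (2 : F) • fL (k⁻¹ (j P)) = (2 : F) • k⁻¹ (j P) - (k (j P) + k⁻¹ (j P)) -
        (k (j P) + k⁻¹ (j P)) := by
      rw [← hy]
      abel
    rw [h3, two_smul, two_smul]
    abel
  have hE : ∀ P, fL (k (j P)) = -(k⁻¹ (j P)) := by
    intro P
    have hy : fL ((2 : F) • k (j P) - j (σ * P)) = (2 : F) • k (j P) - j (σ * P) := by
      apply hflorth
      intro Q
      rw [map_sub, LinearMap.sub_apply, map_smul, LinearMap.smul_apply, smul_eq_mul, hD.f2,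
        hD.f1, sub_eq_zero]
      congr 1
      ring
    rw [KH_sub hflin, hflin.2, hA, sub_neg_eq_add, ← hD.s P] at hy
    apply h2inj
    have h3 : (2 : F) • fL (k (j P)) = (2 : F) • k (j P) - (k (j P) + k⁻¹ (j P)) -
        (k (j P) + k⁻¹ (j P)) := by
      rw [← hy]
      abel
    rw [h3, two_smul, two_smul]
    abel
  -- the square of k on j P
  have hkk : ∀ P, k (k (j P)) = k (j (σ * P)) - j P := by
    intro P
    have h1 : k (j P) = j (σ * P) - k⁻¹ (j P) := by
      rw [← hD.s P]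
      abel
    rw [h1, KH_sub hklin, pinv]
  have hkk' : ∀ P, k⁻¹ (k⁻¹ (j P)) = k⁻¹ (j (σ * P)) - j P := by
    intro P
    have h1 : k⁻¹ (j P) = j (σ * P) - k (j P) := by
      rw [← hD.s P]
      abel
    rw [h1, KH_sub hkilin, invp]
  have hh1 : ∀ P, (k * fL * k⁻¹ * fL) (j P) = k (k (j P)) := by
    intro P
    show k (fL (k⁻¹ (fL (j P)))) = k (k (j P))
    rw [hA, KH_neg hkilin, KH_neg hflin, hC, neg_neg]
  have hh2 : ∀ P, (k * fL * k⁻¹ * fL) (k (j P)) = k (k (k (j P))) := by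
    intro P
    show k (fL (k⁻¹ (fL (k (j P))))) = k (k (k (j P)))
    rw [hE, KH_neg hkilin, KH_neg hflin, hkk', KH_sub hflin, hC, hA, hkk]
    congr 1
    abel
  have hlinh : ∀ x y, (k * fL * k⁻¹ * fL) (x + y) = (k * fL * k⁻¹ * fL) x +
      (k * fL * k⁻¹ * fL) y := by
    intro x y
    show k (fL (k⁻¹ (fL (x + y)))) = k (fL (k⁻¹ (fL x))) + k (fL (k⁻¹ (fL y)))
    rw [hflin.1, hkilin.1, hflin.1, hklin.1]
  generalize k * fL * k⁻¹ * fL = h at hh1 hh2 hlinh ⊢
  -- powers
  have hpow : ∀ i : ℕ, ∀ P, ∃ Q R, (k ^ (2 * i)) (j P) = j Q + k (j R) ∧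
      (h ^ i) (j P) = (k ^ (2 * i)) (j P) := by
    intro i
    induction i with
    | zero =>
      intro P
      refine ⟨P, 0, ?_, ?_⟩
      · rw [mul_zero, pow_zero, map_zero]
        have : k 0 = 0 := by
          have := hklin.2 0 0
          rwa [zero_smul, zero_smul] at this
        rw [this, add_zero]
        rfl
      · rw [mul_zero, pow_zero, pow_zero]
    | succ i ih =>
      intro P
      obtain ⟨Q, R, h3, h4⟩ := ih P
      have h5 : (k ^ (2 * (i + 1))) (j P) = k (k ((k ^ (2 * i)) (j P))) := by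
        have : 2 * (i + 1) = 1 + (1 + 2 * i) := by ring
        rw [this, pow_add, pow_one, Equiv.Perm.mul_apply, pow_add, pow_one, Equiv.Perm.mul_apply]
      have h6 : (h ^ (i + 1)) (j P) = h ((h ^ i) (j P)) := by
        rw [pow_succ', Equiv.Perm.mul_apply]
      have h7 : h (j Q + k (j R)) = k (k (j Q + k (j R))) := by
        rw [hlinh, hh1, hh2, hklin.1, hklin.1]
      have h8 : ∃ Q' R', k (k (j Q + k (j R))) = j Q' + k (j R') := by
        have h9 : ∀ Q R, ∃ Q' R', k (j Q + k (j R)) = j Q' + k (j R') := by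
          intro Q R
          refine ⟨-R, Q + σ * R, ?_⟩
          rw [hklin.1, hkk, map_neg, map_add, hklin.1]
          abel
        obtain ⟨Q1, R1, h10⟩ := h9 Q R
        rw [h10]
        exact h9 Q1 R1
      obtain ⟨Q', R', h9⟩ := h8
      refine ⟨Q', R', ?_, ?_⟩
      · rw [h5, h3, h9]
      · rw [h6, h4, h5, h3, h7]
  intro i lam hi
  by_contra hri
  have h3 : ∀ P, (k ^ (2 * i)) (j P) = lam • j P := by
    intro P
    obtain ⟨_, _, _, h4⟩ := hpow i P
    rw [← h4]
    exact hi _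
  have h4 : ∀ (m : ℕ) P, ((k ^ (2 * i)) ^ m) (j P) = (lam ^ m) • j P := by
    intro m
    induction m with
    | zero =>
      intro P
      rw [pow_zero, pow_zero, one_smul]
      rfl
    | succ m ih =>
      intro P
      rw [pow_succ, Equiv.Perm.mul_apply, h3, ← map_smul, ih, map_smul, smul_smul, pow_succ]
  have hcop : Nat.Coprime (2 * i) r := by
    apply Nat.Coprime.symm
    rw [Nat.Prime.coprime_iff_not_dvd hr, Nat.Prime.dvd_mul hr]
    rintro (h5 | h5)
    · exact hr2 ((Nat.prime_dvd_prime_iff_eq hr Nat.prime_two).1 h5)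
    · exact hri h5
  obtain ⟨m, hm⟩ : ∃ m : ℕ, (2 * i) * m ≡ 1 [MOD r] := by
    obtain ⟨m, hm⟩ := Nat.exists_mul_mod_eq_one_of_coprime hcop hr.one_lt
    exact ⟨m, by
      unfold Nat.ModEq
      rw [hm.2, Nat.mod_eq_of_lt hr.one_lt]⟩
  have hkm : (k ^ (2 * i)) ^ m = k := by
    rw [← pow_mul]
    have h5 : k ^ (2 * i * m) = k ^ 1 := by
      rw [pow_eq_pow_iff_modEq]
      exact hm.of_dvd (orderOf_dvd_of_pow_eq_one hkr)
    rw [h5, pow_one]
  have hkj : ∀ P, k (j P) = (lam ^ m) • j P := by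
    intro P
    have := h4 m P
    rwa [hkm] at this
  obtain ⟨μ, hμ⟩ : ∃ μ, μ = lam ^ m := ⟨_, rfl⟩
  rw [← hμ] at hkj
  -- nondegeneracy of the trace form
  have hnd : ∀ x : K, (∀ y, Algebra.trace F K (β * x * y) = 0) → x = 0 := by
    intro x hx
    have h5 := (hbf (F := F) (K := K)).1 β⁻¹ (inv_ne_zero hD.b0)
    apply h5.nd x
    intro y
    show Algebra.trace F K (β⁻¹⁻¹ * x * y) = 0
    rw [inv_inv]
    exact hx y
  have hσ : σ = algebraMap F K (2 * μ) := by
    rw [← sub_eq_zero]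
    apply hnd
    intro y
    have h5 := hD.f2 1 y
    rw [hkj, map_smul, LinearMap.smul_apply, smul_eq_mul, hD.f1, ← mul_assoc] at h5
    have h6 : β * (σ - algebraMap F K (2 * μ)) * y = β * σ * 1 * y -
        (2 * μ) • (β * 1 * y) := by
      rw [Algebra.smul_def]
      ring
    rw [h6, map_sub, map_smul, smul_eq_mul, h5, sub_self]
  have hj1 : j 1 ≠ 0 := by
    intro h5
    have h6 : (1 : K) = 0 := by
      apply hnd
      intro y
      rw [← hD.f1, h5, map_zero, LinearMap.zero_apply]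
    exact one_ne_zero h6
  have h5 : μ • k⁻¹ (j 1) = j 1 := by
    rw [← hkilin.2, ← hkj, invp]
  have h6 := hD.s 1
  have h7 : j (σ * 1) = (2 * μ) • j 1 := by
    rw [hσ, ← Algebra.smul_def, map_smul]
  rw [h7, hkj] at h6
  have h8 : (μ * μ) • j 1 + j 1 = (μ * (2 * μ)) • j 1 := by
    have := congrArg (fun z => μ • z) h6
    simp only [smul_add, smul_smul] at this
    rw [h5] at this
    exact this
  have h9 : (1 - μ * μ) • j 1 = 0 := by
    have h10 : (1 - μ * μ) • j 1 = ((μ * μ) • j 1 + j 1) - (μ * (2 * μ)) • j 1 := by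
      rw [← one_smul F (j 1), smul_smul, smul_smul, smul_smul, ← add_smul, ← sub_smul]
      congr 1
      ring
    rw [h10, h8, sub_self]
  have h10 : μ * μ = 1 := by
    rcases smul_eq_zero.1 h9 with h11 | h11
    · exact (sub_eq_zero.1 h11).symm
    · exact absurd h11 hj1
  apply hD.s4
  rw [hσ, ← map_pow]
  have : (2 * μ) ^ 2 = 4 := by
    calc (2 * μ) ^ 2 = 4 * (μ * μ) := by ring
      _ = 4 := by rw [h10, mul_one]
  rw [this, map_ofNat]

end Pool.Agent.ORT
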